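import Pool.Agent.P.MP_e0c7cd_co.Short
import Pool.Agent.P.MP_e0c7cd_co.RotEx
import Pool.Agent.P.MP_e0c7cd_co.x.XF
import Pool.Agent.P.MP_e0c7cd_co.x.XG

open Pool.Agent.Mst

theorem Pool.Agent.Results.MP_e0c7cd_co.ExactSixty.result :
    IsLeast {n : ℕ | ∃ (V : Type) (_ : Fintype V) (G : SimpleGraph V) (_ : DecidableRel G.Adj)
      (p : V → ℂ) (o b : G.Dart), IsMatchstick G p ∧ G.Connected ∧ G.IsRegularOfDegree 4 ∧
        (∀ d : G.Dart, d ∉ faceWalk G p o → d ∉ faceWalk G p b →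
          (faceWalk G p d).ncard ≤ 4) ∧ Fintype.card V = n} 60 := by
  constructor
  · obtain ⟨o, b, h⟩ := Ring.gr_short
    exact ⟨Fin 60, inferInstance, Ring.gr, inferInstance, Ring.pt, o, b, Ring.gr_match,
      Ring.gr_conn, Ring.gr_reg, h, Fintype.card_fin 60⟩
  rintro n ⟨V, _, G, _, p, o, b, hm, hc, hreg, hshort, rfl⟩
  obtain ⟨R, hR⟩ := exists_rot hm
  have h4 := reg4_of_regular hreg
  have hg : ∀ d, R.Sh o b d → R.Tri d ∨ R.Rho d := fun d hd => by
    have h1 := hshort d (by rw [R.mem_faceWalk hR]; exact hd.1)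
      (by rw [R.mem_faceWalk hR]; exact hd.2)
    have h2 : faceWalk G p d = {e | R.phi.SameCycle d e} := by
      ext e
      exact R.mem_faceWalk hR d e
    rw [h2] at h1
    exact R.tri_or_rho hm h4 d (R.short (R.rho_ne_of_reg h4) d h1)
  by_cases hob : R.phi.SameCycle o b
  · exact absurd (fun d hd => hg d ⟨hd, fun h => hd (hob.trans h)⟩) (R.not_good hm hc h4 o)
  · exact Rot.Two.bound60 (R := R) ⟨hm, hc, h4, hg, hob⟩

/-- The earlier bound 52 for the same class of graphs is contained in the result. -/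
theorem Pool.Agent.Results.MP_e0c7cd_co.ExactSixty.fifty_two {V : Type} [Fintype V]
    (G : SimpleGraph V) [DecidableRel G.Adj] (p : V → ℂ) (hm : IsMatchstick G p)
    (hc : G.Connected) (hreg : G.IsRegularOfDegree 4) (o b : G.Dart)
    (hshort : ∀ d : G.Dart, d ∉ faceWalk G p o → d ∉ faceWalk G p b →
      (faceWalk G p d).ncard ≤ 4) :
    52 ≤ Fintype.card V :=
  le_trans (by norm_num) (Pool.Agent.Results.MP_e0c7cd_co.ExactSixty.result.2
    ⟨V, _, G, _, p, o, b, hm, hc, hreg, hshort, rfl⟩)
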