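import Pool.Agent.P.MP_e0c7cd_co.RotEx
import Pool.Agent.P.MP_e0c7cd_co.Neg
import Pool.Agent.P.MP_e0c7cd_co.Count

open Pool.Agent.Mst

theorem Pool.Agent.Results.MP_e0c7cd_co.LongFace.result {V : Type} [Fintype V]
    (G : SimpleGraph V) [DecidableRel G.Adj] (p : V → ℂ) (hm : IsMatchstick G p)
    (hc : G.Connected) (hreg : G.IsRegularOfDegree 4) (o : G.Dart) :
    ∃ d : G.Dart, d ∉ faceWalk G p o ∧ 5 ≤ (faceWalk G p d).ncard := by
  obtain ⟨R, hR⟩ := exists_rot hm
  have h4 := reg4_of_regular hreg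
  by_contra hcon
  push Not at hcon
  refine R.not_good hm hc h4 o fun d hd => ?_
  have h1 := hcon d (by rw [R.mem_faceWalk hR]; exact hd)
  have h2 : faceWalk G p d = {e | R.phi.SameCycle d e} := by
    ext e
    exact R.mem_faceWalk hR d e
  rw [h2] at h1
  exact R.tri_or_rho hm h4 d (R.short (R.rho_ne_of_reg h4) d (by omega))
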